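import Pool.Agent.U213.BP.NI

/-!
# From proper regular schemes to all schemes, over a noetherian base ring
-/

set_option autoImplicit false

open CategoryTheory AlgebraicGeometry MvPolynomial Pool.Agent.Y116.UV Pool.Agent.Z125.UN
  Pool.Agent.U583.MW Pool.Agent.U213.BP

namespace Pool.Agent.U213.EM

variable {R : Type} [CommRing R] {P : Sch R → Prop}

/-- The property `P` descends along the alterations of de Jong from the members of the class `C`: for every
integral affine scheme `Spec A` of dimension at most `d` there are a nonempty open subscheme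
`Spec A[1/w]`, a member `Y` of `C` of dimension at most `d`, and an open subscheme `V` of `Y` whose
complement has dimension less than `d`, such that `P` holds for `Spec A[1/w]` if it holds for `V`. -/
structure Alt (P : Sch R → Prop) (C : Sch R → Prop) : Prop where
  ft : ∀ X, C X → FT True X
  alteration : ∀ (d : ℕ) (A : Type) [CommRing A] [IsDomain A] [Algebra R A] [Algebra.FiniteType R A],
    ringKrullDim A ≤ d → ∃ (w : A) (Z Y V : Sch R) (i : Z ⟶ Y) (o : V ⟶ Y), w ≠ 0 ∧ IsTriple i o ∧
      C Y ∧ topologicalKrullDim Y.left ≤ d ∧ topologicalKrullDim Z.left < d ∧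
      (P V → P (aff R (Localization.Away w)))

lemma topDim (A : Type) [CommRing A] [Algebra R A] :
    topologicalKrullDim (aff R A).left = ringKrullDim A :=
  PrimeSpectrum.topologicalKrullDim_eq_ringKrullDim A

lemma isEmpty_of_dim_lt {X : Scheme.{0}} (h : topologicalKrullDim X < (0 : ℕ)) : IsEmpty X := by
  by_contra hne
  rw [not_isEmpty_iff] at hne
  obtain ⟨x⟩ := hne
  have h1 : Nonempty (TopologicalSpace.IrreducibleCloseds X) :=
    ⟨⟨closure {x}, isIrreducible_singleton.closure, isClosed_closure⟩⟩
  have h2 : 0 ≤ topologicalKrullDim X := Order.krullDim_nonneg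
  exact absurd (lt_of_le_of_lt h2 h) (by simp)

/-- From affine schemes of dimension at most `n` to all schemes of dimension at most `n`. -/
lemma of_affine_dim (hP : Dev True P) {n : ℕ} (h : ∀ (A : Type) [CommRing A] [Algebra R A]
    [Algebra.FiniteType R A], ringKrullDim A ≤ n → P (aff R A)) (X : Sch R) (hX : FT True X)
    (hn : topologicalKrullDim X.left ≤ n) : P X := by
  refine of_affine' (P := fun X => topologicalKrullDim X.left ≤ n → P X) (sep := True) ?_ ?_ ?_ X
    hX hn
  · intro X Y hX e hPX hY
    refine hP.iso hX e (hPX ?_)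
    obtain ⟨e⟩ := e
    let f := (Over.forget _).mapIso e
    exact (Topology.IsInducing.topologicalKrullDim_le
      (Scheme.homeoOfIso f).isInducing).trans hY
  · intro Z X U i j hX ht hZ hU hn
    refine hP.total i j hX ht (hZ ?_) (hU ?_)
    · have h1 := (have := ht.closed; i.left.isClosedEmbedding.isInducing)
      exact h1.topologicalKrullDim_le.trans hn
    · have h1 := (have := ht.opened; j.left.isOpenEmbedding.isInducing)
      exact h1.topologicalKrullDim_le.trans hn
  · intro A _ _ _ hA
    rw [topDim] at hA
    exact h A hA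

/-- From the members of `C` of dimension at most `n` to all schemes of dimension at most `n`. -/
theorem of_class_dim [IsNoetherianRing R] (hP : Dev True P) {C : Sch R → Prop} (hC : Alt P C) (n : ℕ)
    (h : ∀ X, C X → topologicalKrullDim X.left ≤ n → P X) (X : Sch R) (hX : FT True X)
    (hdim : topologicalKrullDim X.left ≤ n) : P X := by
  have step : ∀ d : ℕ, d ≤ n → (∀ Z : Sch R, FT True Z → topologicalKrullDim Z.left < d → P Z) →
      ∀ X : Sch R, FT True X → topologicalKrullDim X.left ≤ d → P X := by
    intro d hd hlow X hX hdim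
    refine of_affine_dim hP (fun A _ _ _ hA => ?_) X hX hdim
    refine noeth hP fun p hp => ?_
    obtain ⟨w, Z, Y, V, i, o, hw, ht, hCY, hd1, hd2, hf⟩ :=
      hC.alteration d (A ⧸ p) ((ringKrullDim_quotient_le p).trans hA)
    refine ⟨w, hw, hf ?_⟩
    have h1 : P Z := hlow Z (ft_closed i (hC.ft Y hCY) ht.closed) hd2
    exact hP.opened i o (hC.ft Y hCY) ht h1 (h Y hCY (hd1.trans (by exact_mod_cast hd)))
  have key : ∀ d : ℕ, d ≤ n → ∀ X : Sch R, FT True X → topologicalKrullDim X.left ≤ d → P X := by
    intro d
    induction d with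
    | zero => exact fun hd => step 0 hd fun Z _ hZ => hP.empty Z (isEmpty_of_dim_lt hZ)
    | succ d ih =>
      intro hd
      refine step (d + 1) hd fun Z hZ hZd => ih (by omega) Z hZ ?_
      have h4 : ((d + 1 : ℕ) : WithBot ℕ∞) = ((d : ℕ) : WithBot ℕ∞) + 1 := by norm_num
      rw [h4] at hZd
      exact ENat.WithBot.lt_add_one_iff.mp hZd
  exact key n le_rfl X hX hdim

lemma exists_dim_le (hR : ∃ r : ℕ, ringKrullDim R ≤ r) [IsNoetherianRing R] (A : Type) [CommRing A]
    [Algebra R A] [Algebra.FiniteType R A] : ∃ n : ℕ, ringKrullDim A ≤ n := by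
  obtain ⟨r, hr⟩ := hR
  obtain ⟨n, f, hf⟩ := Algebra.FiniteType.iff_quotient_mvPolynomial''.mp
    (inferInstance : Algebra.FiniteType R A)
  refine ⟨r + n, (ringKrullDim_le_of_surjective f.toRingHom hf).trans ?_⟩
  rw [MvPolynomial.ringKrullDim_of_isNoetherianRing, Nat.card_fin]
  push_cast
  exact add_le_add_left hr _

/-- From the members of `C` to all schemes. -/
theorem of_class (hR : ∃ r : ℕ, ringKrullDim R ≤ r) [IsNoetherianRing R] (hP : Dev True P)
    {C : Sch R → Prop} (hC : Alt P C) (h : ∀ X, C X → P X) (X : Sch R) (hX : FT True X) : P X := by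
  refine of_affine' hP.iso hP.total (fun A _ _ _ => ?_) X hX
  obtain ⟨n, hn⟩ := exists_dim_le hR A
  exact of_class_dim hP hC n (fun X hX _ => h X hX) _ (ft_aff True) (by rw [topDim]; exact hn)

end Pool.Agent.U213.EM
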