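import Pool.Agent.U213.EM.Alt
import Pool.Agent.Q282.UZ.Sys

/-!
# Finite generation of the étale cohomology of the cycle complexes in a fixed negative weight
-/

set_option autoImplicit false

open CategoryTheory AlgebraicGeometry MvPolynomial Pool.Agent.Y116.UV Pool.Agent.Z125.UN
  Pool.Agent.Q282.UZ Pool.Agent.Q193.LT Pool.Agent.U213.BP

namespace Pool.Agent.U213.EM

universe w

/-- All local rings of the scheme are regular. -/
def Regular (X : Scheme.{0}) : Prop := ∀ x : X, IsRegularLocalRing (X.presheaf.stalk x)

/-- The properties of the groups `A i X = H^i(X_et, ℤ^c(n))`, for a fixed `n < 0` and the separated schemes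
`X` of finite type over `R` (`R = ℤ` or `R = 𝔽_p`), which are used. -/
structure IsCycle (R : Type) [CommRing R] (n : ℤ) (A : ℤ → Sch R → ModuleCat.{w} ℤ) : Prop where
  /-- isomorphic schemes have isomorphic groups; the exact sequences
  `⋯ → H^i(Z) → H^i(X) → H^i(U) → H^(i + 1)(Z) → ⋯` of a closed subscheme `Z` of `X` with open complement
  `U`; `H^i(X)` is a direct factor of `H^(i - 1)(X × 𝔾_m)` for affine `X` -/
  loc : IsLocal True A (Equiv.addRight 1) (Equiv.subRight 1)
  /-- the groups of the empty scheme are zero -/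
  empty : ∀ X : Sch R, IsEmpty X.left → ∀ i, Subsingleton (A i X)
  /-- the elements which are killed by an integer `N ≥ 1` form a finitely generated group (the groups with
  coefficients modulo `N` are finite) -/
  torsion : ∀ X : Sch R, FT True X → ∀ (i : ℤ) (N : ℕ), 0 < N →
    (LinearMap.ker (LinearMap.lsmul ℤ (A i X) (N : ℤ))).FG
  /-- de Jong's alterations, with pull-back and push-forward for finite flat morphisms: for every integral
  affine scheme `Spec B` of finite type of dimension at most `d` there are a nonempty open subscheme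
  `Spec B[1/w]`, a proper regular scheme `Y` of dimension at most `d`, an open subscheme `V` of `Y` whose
  complement has dimension less than `d`, and homomorphisms `H^i(Spec B[1/w]) → H^i(V)` and
  `H^i(V) → H^i(Spec B[1/w])` whose composition is the multiplication by an integer `N ≥ 1` -/
  alteration : ∀ (d : ℕ) (B : Type) [CommRing B] [IsDomain B] [Algebra R B] [Algebra.FiniteType R B],
    ringKrullDim B ≤ d → ∃ (w : B) (Z Y V : Sch R) (a : Z ⟶ Y) (o : V ⟶ Y), w ≠ 0 ∧ IsTriple a o ∧
      (FT True Y ∧ IsProper Y.hom ∧ Regular Y.left) ∧ topologicalKrullDim Y.left ≤ d ∧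
      topologicalKrullDim Z.left < d ∧
      ∀ i, ∃ (s : A i (aff R (Localization.Away w)) ⟶ A i V)
        (r : A i V ⟶ A i (aff R (Localization.Away w))) (N : ℕ), 0 < N ∧
        ∀ x, r.hom (s.hom x) = N • x
  /-- for proper regular schemes finite generation for `i ≤ -2n + 1` implies finite generation for all `i`
  (Flach and Morin, Geisser) -/
  range : ∀ X : Sch R, FT True X → IsProper X.hom → Regular X.left →
    (∀ i : ℤ, i ≤ -2 * n + 1 → Module.Finite ℤ (A i X)) → ∀ i : ℤ, Module.Finite ℤ (A i X)

/-- All groups of the scheme `X` are finitely generated. -/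
def FG {R : Type} [CommRing R] (A : ℤ → Sch R → ModuleCat.{w} ℤ) (X : Sch R) : Prop :=
  ∀ i : ℤ, Module.Finite ℤ (A i X)

/-- Flach–Morin in the weight `n`: the groups `H^i(X_et, ℤ^c(n))` are finitely generated for all
`i ≤ -2n + 1` and all proper regular schemes `X`. -/
def ProperRegular {R : Type} [CommRing R] (n : ℤ) (A : ℤ → Sch R → ModuleCat.{w} ℤ) : Prop :=
  ∀ X : Sch R, FT True X → IsProper X.hom → Regular X.left → ∀ i : ℤ, i ≤ -2 * n + 1 →
    Module.Finite ℤ (A i X)

/-- the same for the schemes of dimension at most `d` -/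
def ProperRegularDim {R : Type} [CommRing R] (n : ℤ) (A : ℤ → Sch R → ModuleCat.{w} ℤ) (d : ℕ) :
    Prop :=
  ∀ X : Sch R, FT True X → IsProper X.hom → Regular X.left → topologicalKrullDim X.left ≤ d →
    ∀ i : ℤ, i ≤ -2 * n + 1 → Module.Finite ℤ (A i X)

section

variable {R : Type} [CommRing R] {n : ℤ} {A : ℤ → Sch R → ModuleCat.{w} ℤ} (h : IsCycle R n A)

include h

lemma dev : Dev True (FG A) where
  iso := (clo_class h.loc serre_finite).iso
  total := (clo_class h.loc serre_finite).total
  opened := (clo_class h.loc serre_finite).opened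
  empty X hX i := by
    have h1 := h.empty X hX i
    exact inferInstance

lemma alt : Alt (FG A) fun X : Sch R => FT True X ∧ IsProper X.hom ∧ Regular X.left where
  ft X hX := hX.1
  alteration d B _ _ _ _ hd := by
    obtain ⟨w, Z, Y, V, a, o, hw, ht, hY, h1, h2, h3⟩ := h.alteration d B hd
    refine ⟨w, Z, Y, V, a, o, hw, ht, hY, h1, h2, fun hV i => ?_⟩
    obtain ⟨s, r, N, hN, hsr⟩ := h3 i
    have hB : Algebra.FiniteType R (Localization.Away w) :=
      Algebra.FiniteType.trans (S := B) inferInstance inferInstance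
    refine finite_of_transfer s r (N : ℤ) (fun x => ?_) (h.torsion _ (ft_aff True) i N hN) (hV i)
    rw [hsr x]
    exact (Nat.cast_smul_eq_nsmul ℤ N x).symm

/-- proper regular schemes and all schemes -/
theorem all_iff [IsNoetherianRing R] (hR : ∃ r : ℕ, ringKrullDim R ≤ r) :
    ProperRegular n A ↔ ∀ X : Sch R, FT True X → FG A X := by
  constructor
  · intro h1 X hX
    exact of_class hR (dev h) (alt h) (fun Y hY => h.range Y hY.1 hY.2.1 hY.2.2
      (h1 Y hY.1 hY.2.1 hY.2.2)) X hX
  · intro h1 X hX _ _ i _
    exact h1 X hX i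

theorem dim_iff [IsNoetherianRing R] (d : ℕ) :
    ProperRegularDim n A d ↔
      ∀ X : Sch R, FT True X → topologicalKrullDim X.left ≤ d → FG A X := by
  constructor
  · intro h1 X hX hd
    exact of_class_dim (dev h) (alt h) d (fun Y hY hYd => h.range Y hY.1 hY.2.1 hY.2.2
      (h1 Y hY.1 hY.2.1 hY.2.2 hYd)) X hX hd
  · intro h1 X hX _ _ hXd i _
    exact h1 X hX hXd i

/-- all schemes and three-term systems -/
theorem sys_iff (hR : ShortPresents R) :
    (∀ X : Sch R, FT True X → FG A X) ↔ ForThreeTerms (FG A) :=
  three_iff hR (clo_class h.loc serre_finite)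

end

end Pool.Agent.U213.EM
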